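import Pool.Agent.Helper6_D1.Ebd
import Pool.Agent.Helper20_PP.Nls

/-!
# Squad PP, part D1, module CED: the count for a central idempotent below `b`
-/

open scoped BigOperators

noncomputable section

namespace Pool.Agent.PP.D1H6

open Pool.Agent.PP Pool.Agent.Helper51_AWC Pool.Agent.Helper79_WRA

section gen

variable {F : Type} [Field F] {G : Type} [Group G]

/-- a class function acts on an irreducible modular character as the identity if and only if it
acts on the representation as the identity -/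
theorem act_ev [Finite G] {k : ℕ} {ρ : G →* Matrix (Fin k) (Fin k) F} (h : IsIrr ρ) {a : G → F}
    (ha : IsCl a) : actF a (tr ρ) = tr ρ ↔ ev ρ a = 1 := by
  obtain ⟨w, h1, h2, -⟩ := H20.eig F G k ρ h a ha
  rw [CY66.act_iff H20.eig h ha h1, h1]
  have : Nonempty (Fin k) := ⟨⟨0, h.1⟩⟩
  rw [show (1 : Matrix (Fin k) (Fin k) F) = Matrix.scalar (Fin k) 1 from (map_one _).symm,
    Matrix.scalar_inj]

/-- the relation between the characters of `G` and of `N_G(P)` -/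
def RelD (P : Subgroup G) (f : G → F) (θ : Subgroup.normalizer (P : Set G) → F) : Prop :=
  ∃ (n : ℕ) (σ : G →* Matrix (Fin n) (Fin n) F) (m : ℕ)
    (κ : Subgroup.normalizer (P : Set G) →* Matrix (Fin m) (Fin m) F)
    (π : (Fin n → F) →ₗ[F] (Fin m → F)), IsIrr σ ∧ tr σ = f ∧ IsIrr κ ∧ tr κ = θ ∧
      HV (Subgroup.normalizer (P : Set G)).subtype P κ (mrep σ) π

end gen

/-- CED -/
theorem ced (hcbd : CbdStmt) (hird : IrdStmt) (hind : IndStmt) (hebd : EbdStmt) : CedStmt := by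
  intro ℓ hℓ F _ hF G _ _ N P b hD e he heb
  have hcard := hcbd ℓ F hF G N P b hD
  have hPp : IsPGroup ℓ P := IsPGroup.of_card (n := 1) (by rw [hD.card, pow_one])
  have hbrm := H20.brm ℓ F hF G P (Subgroup.normalizer (P : Set G)) hPp (cent_le P) le_rfl
  have hbe := hbrm.2.2 e he
  have hbb := hbrm.2.2 b hD.idem
  have hrange : (Subgroup.normalizer (P : Set G)).subtype.range =
      Subgroup.normalizer (P : Set G) := Subgroup.range_subtype _
  have hinj : Function.Injective (Subgroup.normalizer (P : Set G)).subtype :=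
    Subgroup.subtype_injective _
  -- related characters
  have hrel : ∀ (a : G → F), IsIdem a →
      IsCl (fun t : Subgroup.normalizer (P : Set G) => br P a t) → ∀ f θ, RelD P f θ →
      (actF a f = f ↔ actF (fun t : Subgroup.normalizer (P : Set G) => br P a t) θ = θ) := by
    rintro a ha hba f θ ⟨n, σ, m, κ, π, hσ, rfl, hκ, rfl, hV⟩
    obtain ⟨w, h1, -, -⟩ := H20.eig F G n σ hσ a ha.1
    have h2 := hebd ℓ F hF G P hD.card _ _ hinj hrange n σ m κ π hκ hV a w ha.1 h1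
    rw [CY66.act_iff H20.eig hσ ha.1 h1, CY66.act_iff H20.eig hκ hba h2]
  have hA : ∀ f : G → F, f ∈ {θ : G → F | θ ∈ IBr F G ∧ actF b θ = θ} →
      ∃ θ : Subgroup.normalizer (P : Set G) → F,
        θ ∈ IBr F (Subgroup.normalizer (P : Set G)) ∧ RelD P f θ := by
    rintro f ⟨⟨n, σ, hσ, rfl⟩, h2⟩
    obtain ⟨m, κ, π, hκ, hV⟩ := hird ℓ F hF G N P b hD _ _ hrange n σ hσ
      ((act_ev hσ hD.idem.1).1 h2)
    exact ⟨tr κ, ⟨m, κ, hκ, rfl⟩, n, σ, m, κ, π, hσ, rfl, hκ, rfl, hV⟩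
  choose! Θ hΘ hΘR using hA
  have hinjΘ : Set.InjOn Θ {θ : G → F | θ ∈ IBr F G ∧ actF b θ = θ} := by
    intro f hf f' hf' h
    obtain ⟨n, σ, m, κ, π, hσ, h1, hκ, h2, hV⟩ := hΘR f hf
    obtain ⟨n', σ', m', κ', π', hσ', h1', hκ', h2', hV'⟩ := hΘR f' hf'
    have h3 := (act_ev hσ hD.idem.1).1 (by rw [h1]; exact hf.2)
    have h3' := (act_ev hσ' hD.idem.1).1 (by rw [h1']; exact hf'.2)
    rw [← h1, ← h1']
    exact hind ℓ F hF G N P b hD _ _ hrange n n' σ σ' hσ hσ' h3 h3' m m' κ κ' π π' hκ hκ'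
      (h2.trans (h.trans h2'.symm)) hV hV'
  have himg : Θ '' {θ : G → F | θ ∈ IBr F G ∧ actF b θ = θ} =
      {θ : Subgroup.normalizer (P : Set G) → F | θ ∈ IBr F (Subgroup.normalizer (P : Set G)) ∧
        actF (fun t : Subgroup.normalizer (P : Set G) => br P b t) θ = θ} := by
    refine Set.eq_of_subset_of_ncard_le ?_ ?_ ?_
    · rintro _ ⟨f, hf, rfl⟩
      exact ⟨hΘ f hf, (hrel b hD.idem hbb.1 _ _ (hΘR f hf)).1 hf.2⟩
    · rw [hinjΘ.ncard_image, hcard]
    · exact (H20.ibf ℓ F hF _).1.subset fun θ hθ => hθ.1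
  -- the characters under `e` are under `b`
  have hsub : ∀ f ∈ {θ : G → F | θ ∈ IBr F G ∧ actF e θ = θ},
      f ∈ {θ : G → F | θ ∈ IBr F G ∧ actF b θ = θ} := by
    rintro f ⟨⟨n, σ, hσ, rfl⟩, h2⟩
    refine ⟨⟨n, σ, hσ, rfl⟩, (act_ev hσ hD.idem.1).2 ?_⟩
    have h3 := (act_ev hσ he.1).1 h2
    have h4 := H20.ev_mulF σ e b
    rw [heb, h3, one_mul] at h4
    exact h4.symm
  have hsub' : ∀ θ ∈ {θ : Subgroup.normalizer (P : Set G) → F |
      θ ∈ IBr F (Subgroup.normalizer (P : Set G)) ∧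
        actF (fun t : Subgroup.normalizer (P : Set G) => br P e t) θ = θ},
      θ ∈ {θ : Subgroup.normalizer (P : Set G) → F |
      θ ∈ IBr F (Subgroup.normalizer (P : Set G)) ∧
        actF (fun t : Subgroup.normalizer (P : Set G) => br P b t) θ = θ} := by
    rintro θ ⟨⟨m, κ, hκ, rfl⟩, h2⟩
    refine ⟨⟨m, κ, hκ, rfl⟩, (act_ev hκ hbb.1).2 ?_⟩
    have h3 := (act_ev hκ hbe.1).1 h2
    have h4 := H20.ev_mulF κ (fun t : Subgroup.normalizer (P : Set G) => br P e t)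
      (fun t : Subgroup.normalizer (P : Set G) => br P b t)
    rw [← hbrm.2.1 e b, ← hbrm.1 e b he.1 hD.idem.1, heb, h3, one_mul] at h4
    exact h4.symm
  refine Set.ncard_congr (fun f _ => Θ f) (fun f hf => ?_) (fun f f' hf hf' h => ?_)
    fun θ hθ => ?_
  · exact ⟨hΘ f (hsub f hf), (hrel e he hbe.1 _ _ (hΘR f (hsub f hf))).1 hf.2⟩
  · exact hinjΘ (hsub f hf) (hsub f' hf') h
  · have h1 := hsub' θ hθ
    rw [← himg] at h1
    obtain ⟨f, hf, rfl⟩ := h1
    exact ⟨f, ⟨hf.1, (hrel e he hbe.1 _ _ (hΘR f hf)).2 hθ.2⟩, rfl⟩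

end Pool.Agent.PP.D1H6
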