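import Pool.Agent.Helper66_D1.Stmts
import Pool.Agent.Helper66_CY.Cyn

/-!
# Squad PP, part D1, module EBD: class functions act on `V^P / (∑ P) V` through the Brauer map
-/

open scoped BigOperators

noncomputable section

namespace Pool.Agent.PP.D1H6

open Pool.Agent.PP Pool.Agent.Helper51_AWC Pool.Agent.Helper79_WRA

section gen

variable {F : Type} [Field F] {G : Type} [Group G]

theorem cent_le (P : Subgroup G) :
    Subgroup.centralizer (P : Set G) ≤ Subgroup.normalizer (P : Set G) := by
  intro x hx
  rw [Subgroup.mem_normalizer_iff]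
  intro y
  constructor
  · intro hy
    rw [← Subgroup.mem_centralizer_iff.1 hx y hy, mul_inv_cancel_right]
    exact hy
  · intro hy
    have h1 := Subgroup.mem_centralizer_iff.1 hx _ hy
    have h2 : x * y * x⁻¹ = y := by
      have h3 : x * y = x * (x * y * x⁻¹) := by rw [← h1]; group
      exact (mul_left_cancel h3).symm
    rwa [h2] at hy

/-- the norm is contained in the fixed points -/
theorem nrm_le_fix [Finite G] {V : Type} [AddCommGroup V] [Module F V]
    (ρ : Representation F G V) (P : Subgroup G) : nrmV ρ P ≤ fixV ρ P := by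
  have := Fintype.ofFinite P
  rintro v ⟨w, rfl⟩ q hq
  rw [finsum_eq_sum_of_fintype, LinearMap.sum_apply, map_sum]
  refine Fintype.sum_equiv (Equiv.mulLeft (⟨q, hq⟩ : P)) _ _ fun p => ?_
  show ρ q (ρ p w) = ρ (q * p) w
  rw [map_mul, Module.End.mul_apply]

theorem evV_mrep [Finite G] {n : ℕ} (σ : G →* Matrix (Fin n) (Fin n) F) (a : G → F)
    (v : Fin n → F) : evV (mrep σ) a v = (ev σ a).mulVec v := by
  have := Fintype.ofFinite G
  rw [evV, ev, finsum_eq_sum_of_fintype, finsum_eq_sum_of_fintype, LinearMap.sum_apply,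
    Matrix.sum_mulVec]
  refine Finset.sum_congr rfl fun g _ => ?_
  rw [LinearMap.smul_apply, Matrix.smul_mulVec]
  rfl

theorem scalar_mulVec {m : ℕ} (c : F) (w : Fin m → F) :
    (Matrix.scalar (Fin m) c).mulVec w = c • w := by
  rw [Matrix.scalar_apply, ← Matrix.smul_one_eq_diagonal, Matrix.smul_mulVec, Matrix.one_mulVec]

end gen

/-- EBD -/
theorem ebd (hebv : EbvStmt) : EbdStmt := by
  intro ℓ _ F _ hF G _ _ P hP A _ _ j hj hr n σ m κ π hκ hV a c ha hac
  have := Fintype.ofFinite G
  have := Fintype.ofFinite A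
  have key : ∀ w : Fin m → F, (ev κ (fun t : A => br P a (j t))).mulVec w = c • w := by
    intro w
    obtain ⟨v, hv, rfl⟩ := hV.sur w
    have h1 := hebv ℓ F G P hP (Fin n → F) (mrep σ) a (fun p _ x => ha x p) v hv
    rw [evV_mrep σ a v, hac, scalar_mulVec] at h1
    -- the image of the Brauer part
    have h2 : π (evV (mrep σ) (br P a) v) =
        (ev κ (fun t : A => br P a (j t))).mulVec (π v) := by
      rw [evV, ev, finsum_eq_sum_of_fintype, finsum_eq_sum_of_fintype, LinearMap.sum_apply,
        Matrix.sum_mulVec, map_sum]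
      have h3 : ∀ t : A, (br P a (j t) • κ t).mulVec (π v) =
          π ((br P a (j t) • mrep σ (j t)) v) := by
        intro t
        rw [Matrix.smul_mulVec, ← hV.int t v hv, LinearMap.smul_apply, map_smul]
      rw [Finset.sum_congr rfl fun t _ => h3 t]
      symm
      refine Finset.sum_of_injOn j (fun x _ y _ h => hj h) (fun _ _ => Finset.mem_coe.2
        (Finset.mem_univ _)) (fun g _ hg => ?_) (fun _ _ => rfl)
      have h4 : br P a g = 0 := by
        unfold br
        rw [if_neg]
        intro hc
        have h5 : g ∈ j.range := by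
          rw [hr]
          exact cent_le P hc
        obtain ⟨t, rfl⟩ := h5
        exact hg ⟨t, Finset.mem_coe.2 (Finset.mem_univ _), rfl⟩
      rw [h4, zero_smul, LinearMap.zero_apply, map_zero]
    have h6 : c • v - evV (mrep σ) (br P a) v ∈ fixV (mrep σ) P := nrm_le_fix _ _ h1
    have h7 := (hV.ker _ h6).2 h1
    rw [map_sub, map_smul, h2, sub_eq_zero] at h7
    exact h7.symm
  apply Matrix.mulVec_injective
  funext w
  rw [key, scalar_mulVec]

end Pool.Agent.PP.D1H6
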